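import Pool.Agent.helper14.AU.Spec

/-! # Project au, FW: the system of a formula is well formed (helper19) -/

set_option autoImplicit false

namespace Pool.Agent.helper14.AU

open N68a2faeb N793a5b8e Pool.Agent.helper56.SGE Pool.Agent.helper56.SGE.QSys
  Pool.Agent.helper98.Tsei Pool.Agent.H54.PT

theorem FW_desc : ∀ e < 12, ∀ c < 4, descU e c ≤ 15 := by decide

theorem FW_pref {L i D : ℕ} (hi : i < L) (hD : D ≤ 15) : prefU L i D < 32 * L + 2 := by
  unfold prefU
  split_ifs <;> omega

theorem FW : FW_stmt := by
  intro w
  constructor
  · unfold sysU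
    split_ifs with h
    · intro k hk c hc
      show (if k < mU (len w) then lref (tokw w) (len w) k c
        else prefU (len w) ((k - mU (len w)) / 12) (descU ((k - mU (len w)) % 12) c)) <
          32 * len w + 2
      have hk' : k < mU (len w) + 12 * len w := hk
      split_ifs with h1
      · have := lref_lt h.2 (k := k) hc
        omega
      · apply FW_pref
        · omega
        · exact FW_desc _ (Nat.mod_lt _ (by norm_num)) c hc
    · intro k hk c hc
      show (if c ≤ 1 then 1 else 0) < 0 + 2
      split_ifs <;> norm_num
  · rintro r ⟨hG, i, hi, -, hr⟩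
    have hnv : (sysU w).nv = 32 * len w := by
      unfold sysU
      rw [if_pos hG]
    unfold nR
    rw [hnv]
    omega

end Pool.Agent.helper14.AU
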